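import Pool.Agent.Helper74.WB.St

/-! # Project WB, module RUN -/

set_option autoImplicit false

namespace Pool.Agent.Helper38.WB

open Pool.Agent.Helper74 Pool.Agent.Helper74.WB

theorem red_cfg {W : Type} (s : List W) : Red (cfg s : List (Lb W × Bool)) := by
  induction s with
  | nil => trivial
  | cons X s ih =>
    refine red_cons _ _ ih ?_
    intro y hy
    cases s with
    | nil => simp at hy
    | cons Y s =>
      simp only [List.map_cons, List.head?_cons, Option.mem_def, Option.some.injEq] at hy
      subst hy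
      simp [iv]

theorem not_bo_nil {W : Type} (rk : W → Bool) : ¬ BO rk ([] : List (Lb W × Bool)) := by
  rintro ((⟨τ, h⟩ | ⟨s, X, τ, h, -⟩) | ⟨ρ, g, τ, h, -⟩)
  · simp at h
  · simp at h
  · simp at h

theorem hRUN (hBLK : StBLK) : StRUN := by
  intro α W rk l hRc hnd w
  have key : ∀ (w : List α) (σ : List (Lb W × Bool)), Red σ → BO rk σ →
      ¬ Gr (w.flatMap fun a => blk (l a)) σ [] := by
    intro w
    induction w with
    | nil =>
      intro σ _ hσ h
      have h1 : σ = [] := h
      subst h1
      exact not_bo_nil rk hσ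
    | cons a w ih =>
      intro σ hr hσ h
      rw [List.flatMap_cons, gr_append] at h
      obtain ⟨ρ, h1, h2⟩ := h
      exact ih ρ (red_gr _ _ _ hr h1)
        ((hBLK W rk (l a) (hRc a) (hnd a)).2 σ ρ hr hσ h1) h2
  induction w with
  | nil =>
    intro s h
    have h1 : (cfg s : List (Lb W × Bool)) = [] := h
    have h2 : s = [] := by simpa [cfg] using h1
    subst h2
    exact DR.Acc.nil
  | cons a w ih =>
    intro s h
    rw [List.flatMap_cons, gr_append] at h
    obtain ⟨ρ, h1, h2⟩ := h
    rcases (hBLK W rk (l a) (hRc a) (hnd a)).1 s ρ h1 with ⟨g, hg, s', hs, hρ⟩ | hbo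
    · subst hs
      subst hρ
      exact DR.Acc.step a g.1 g.2 s' w hg (ih _ h2)
    · exact absurd h2 (key w ρ (red_gr _ _ _ (red_cfg s) h1) hbo)

end Pool.Agent.Helper38.WB
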